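import Mathlib

/-!
# Numerical lemmas for the core theorem
-/

set_option autoImplicit false

namespace Pool.Agent.QFR

open Finset Real

theorem core_nu {κ : ℝ} (hκ : 1 ≤ κ) {ν : ℕ} (hν : 10 * (1 + Real.log κ) ≤ ν) :
    10 ≤ (ν : ℝ) ∧ 7 * κ ^ 2 ≤ (5 / 4) ^ ν := by
  have hl := Real.log_nonneg hκ
  have hν10 : 10 ≤ (ν : ℝ) := by linarith
  refine ⟨hν10, ?_⟩
  have hκ0 : 0 < κ := by linarith
  have h1 : κ ^ 2 ≤ exp (ν * (1 / 5) - 2) := by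
    calc κ ^ 2 = exp (Real.log κ * 2) := by
          rw [Real.exp_mul, Real.exp_log hκ0]
          norm_num
      _ ≤ _ := Real.exp_le_exp.2 (by linarith)
  have h2 : exp (1 / 5) ≤ 5 / 4 := by
    have h3 : 1 - (5 / 4 : ℝ)⁻¹ ≤ Real.log (5 / 4) := Real.one_sub_inv_le_log_of_pos (by norm_num)
    have h4 : (1 / 5 : ℝ) ≤ Real.log (5 / 4) := by
      refine le_trans ?_ h3
      norm_num
    calc exp (1 / 5) ≤ exp (Real.log (5 / 4)) := Real.exp_le_exp.2 h4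
      _ = 5 / 4 := Real.exp_log (by norm_num)
  have h3 : exp (ν * (1 / 5)) ≤ (5 / 4) ^ ν := by
    rw [Real.exp_nat_mul]
    exact pow_le_pow_left₀ (Real.exp_pos _).le h2 ν
  have h4 : (7 : ℝ) ≤ exp 2 := by
    have h5 : exp 2 = exp 1 * exp 1 := by rw [← Real.exp_add]; norm_num
    rw [h5]
    have h6 := Real.exp_one_gt_d9
    nlinarith
  have h5 : exp (ν * (1 / 5) - 2) * exp 2 = exp (ν * (1 / 5)) := by
    rw [← Real.exp_add]
    ring_nf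
  calc 7 * κ ^ 2 ≤ exp 2 * exp (ν * (1 / 5) - 2) :=
        mul_le_mul h4 h1 (by positivity) (Real.exp_pos _).le
    _ = exp (ν * (1 / 5)) := by rw [mul_comm, h5]
    _ ≤ _ := h3

theorem core_cube {ν : ℕ} (hν : 10 ≤ ν) : (ν : ℝ) ^ 3 ≤ 4 ^ ν := by
  induction ν, hν using Nat.le_induction with
  | base => norm_num
  | succ n hn ih =>
    have hn' : (10 : ℝ) ≤ n := by exact_mod_cast hn
    push_cast
    have h1 : ((n : ℝ) + 1) ^ 3 ≤ 4 * (n : ℝ) ^ 3 := by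
      have h2 : (n : ℝ) + 1 ≤ 11 / 10 * n := by linarith
      calc ((n : ℝ) + 1) ^ 3 ≤ (11 / 10 * n) ^ 3 := pow_le_pow_left₀ (by linarith) h2 3
        _ = 1331 / 1000 * (n : ℝ) ^ 3 := by ring
        _ ≤ 4 * (n : ℝ) ^ 3 := mul_le_mul_of_nonneg_right (by norm_num) (by positivity)
    calc ((n : ℝ) + 1) ^ 3 ≤ 4 * (n : ℝ) ^ 3 := h1
      _ ≤ 4 * 4 ^ n := by linarith
      _ = 4 ^ (n + 1) := by rw [pow_succ]; ring

theorem core_big {κ : ℝ} (hκ : 1 ≤ κ) {ν : ℕ} (hν : 10 * (1 + Real.log κ) ≤ ν) {x : ℝ}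
    (hx : x ≤ 140000 * κ * ν ^ 2) :
    256 * (5200 * κ * ν) * 16 ^ ν * (2 * x) ≤ 2 ^ (10 * ν) := by
  obtain ⟨h10, h7⟩ := core_nu hκ hν
  have h10' : 10 ≤ ν := by exact_mod_cast h10
  have hc := core_cube h10'
  have hκ0 : 0 < κ := by linarith
  have e1 : (2 : ℝ) ^ (10 * ν) = 16 ^ ν * (4 ^ ν * ((64 / 5) ^ ν * (5 / 4) ^ ν)) := by
    rw [pow_mul, ← mul_pow, ← mul_pow, ← mul_pow]
    norm_num
  have e2 : (118059162071 : ℝ) ≤ (64 / 5) ^ ν := by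
    calc (118059162071 : ℝ) ≤ (64 / 5) ^ 10 := by norm_num
      _ ≤ (64 / 5) ^ ν := pow_le_pow_right₀ (by norm_num) h10'
  have e3 : 372736000000 * κ ^ 2 ≤ (64 / 5) ^ ν * (5 / 4) ^ ν := by
    calc 372736000000 * κ ^ 2 ≤ 118059162071 * (7 * κ ^ 2) := by
          have : 0 ≤ κ ^ 2 := sq_nonneg _
          linarith
      _ ≤ _ := mul_le_mul e2 h7 (by positivity) (by positivity)
  rw [e1]
  calc 256 * (5200 * κ * ν) * 16 ^ ν * (2 * x)
      ≤ 256 * (5200 * κ * ν) * 16 ^ ν * (2 * (140000 * κ * ν ^ 2)) :=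
        mul_le_mul_of_nonneg_left (by linarith) (by positivity)
    _ = 16 ^ ν * ((ν : ℝ) ^ 3 * (372736000000 * κ ^ 2)) := by ring
    _ ≤ _ := by
        refine mul_le_mul_of_nonneg_left ?_ (by positivity)
        exact mul_le_mul hc e3 (by positivity) (by positivity)

theorem core_exp (r : ℕ) (c : ℝ) (h : c + 3 ≤ r) : 12 * (1 / 4 : ℝ) ^ r ≤ exp (-c) := by
  have h1 : (1 / 4 : ℝ) ≤ exp (-1) := by
    rw [Real.exp_neg, one_div]
    refine inv_anti₀ (Real.exp_pos _) ?_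
    have := Real.exp_one_lt_d9
    linarith
  have h2 : (12 : ℝ) ≤ exp 3 := by
    have h5 : exp 3 = exp 1 * (exp 1 * exp 1) := by
      rw [← Real.exp_add, ← Real.exp_add]
      norm_num
    rw [h5]
    have h6 := Real.exp_one_gt_d9
    have h7 : (2.7 : ℝ) * 2.7 ≤ exp 1 * exp 1 := mul_le_mul (by linarith) (by linarith)
      (by norm_num) (by linarith)
    have h8 : (2.7 : ℝ) * (2.7 * 2.7) ≤ exp 1 * (exp 1 * exp 1) := mul_le_mul (by linarith) h7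
      (by norm_num) (by linarith)
    linarith
  calc 12 * (1 / 4 : ℝ) ^ r ≤ exp 3 * exp (-1) ^ r :=
        mul_le_mul h2 (pow_le_pow_left₀ (by norm_num) h1 r) (by positivity) (Real.exp_pos _).le
    _ = exp (3 - r) := by
        rw [← Real.exp_nat_mul, ← Real.exp_add]
        ring_nf
    _ ≤ exp (-c) := Real.exp_le_exp.2 (by linarith)

theorem core_j {κ : ℝ} (hκ : 1 ≤ κ) {ν : ℕ} (h10 : 10 ≤ (ν : ℝ)) :
    ∃ j : ℕ, 70000 * κ * ν ^ 2 ≤ (2 : ℝ) ^ j ∧ (2 : ℝ) ^ j ≤ 140000 * κ * ν ^ 2 := by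
  have hn : (1 : ℝ) ≤ (ν : ℝ) ^ 2 := by nlinarith
  have h1 : 1 ≤ 70000 * κ * (ν : ℝ) ^ 2 := by
    have : 1 * 1 ≤ κ * (ν : ℝ) ^ 2 := mul_le_mul hκ hn (by norm_num) (by linarith)
    linarith
  obtain ⟨m, hm1, hm2⟩ := exists_nat_pow_near h1 (one_lt_two : (1 : ℝ) < 2)
  refine ⟨m + 1, hm2.le, ?_⟩
  rw [pow_succ]
  linarith

end Pool.Agent.QFR
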